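import Pool.Agent.Lib.MP_ac65b7_lc.KFinal

/-!
# The open core of a restrained structure is i-minimal, in all dimensions
-/

set_option autoImplicit false

open FirstOrder Set Filter

namespace Pool.Agent.Results.MP_ac65b7_lc.AllDimensions

/-- Let the `L`-structure on the ordered field `K` define (without parameters) the addition, the
multiplication and the order of `K`, and let it be definably complete and restrained. Let `L'` be
a relational structure on `K` whose basic relations are open sets definable in the
`L`-structure, and let `X ⊆ Kⁿ` be definable (with parameters) in the `L'`-structure. Then there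
is an open dense set `U ⊆ Kⁿ`, definable in the `L`-structure, in which `X ∩ U` is relatively
clopen: both `X ∩ U` and `U \ X` are open. Hence `X` has nonempty interior or is nowhere dense. -/
theorem result (K : Type) [Field K] [LinearOrder K] [IsStrictOrderedRing K] [TopologicalSpace K]
    [OrderTopology K] (L : FirstOrder.Language.{0, 0}) [L.Structure K]
    (hadd : (∅ : Set K).Definable L {v : Fin 3 → K | v 0 + v 1 = v 2})
    (hmul : (∅ : Set K).Definable L {v : Fin 3 → K | v 0 * v 1 = v 2})
    (hlt : (∅ : Set K).Definable L {v : Fin 2 → K | v 0 < v 1})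
    (hdc : ∀ X : Set K, (Set.univ : Set K).Definable L {v : Fin 1 → K | v 0 ∈ X} →
        X.Nonempty → BddAbove X → ∃ s, IsLUB X s)
    (hres : ∀ (n : ℕ) (D : Set (Fin n → K)) (g : (Fin n → K) → K),
        (Set.univ : Set K).Definable L D → DiscreteTopology ↥D →
        (Set.univ : Set K).Definable L
          {v : Fin (n + 1) → K | Fin.init v ∈ D ∧ v (Fin.last n) = g (Fin.init v)} →
        interior (closure (g '' D)) = ∅)
    (L' : FirstOrder.Language.{0, 0}) [L'.Structure K]
    (hF : ∀ n, IsEmpty (L'.Functions n))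
    (hR : ∀ (n : ℕ) (R : L'.Relations n),
      IsOpen {v : Fin n → K | FirstOrder.Language.Structure.RelMap R v} ∧
      (Set.univ : Set K).Definable L
        {v : Fin n → K | FirstOrder.Language.Structure.RelMap R v})
    (n : ℕ) (X : Set (Fin n → K)) (hX : (Set.univ : Set K).Definable L' X) :
    (∃ U : Set (Fin n → K), IsOpen U ∧ Dense U ∧ (Set.univ : Set K).Definable L U ∧
      IsOpen (X ∩ U) ∧ IsOpen (U \ X)) ∧
    ((interior X).Nonempty ∨ interior (closure X) = ∅) := by
  let _ : Pool.Agent.IMinK.Str K := ⟨L, inferInstance⟩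
  have : Pool.Agent.IMinK.Res K := ⟨hadd, hmul, hlt, hdc, hres⟩
  obtain ⟨U, ⟨⟨hUo, hUd⟩, hUdef⟩, hloc⟩ := Pool.Agent.IMinK.iminimal_pi L' hF hR n X hX
  refine ⟨⟨U, hUo, hUd, hUdef, ?_, ?_⟩, ?_⟩
  · rw [isOpen_iff_mem_nhds]
    rintro x ⟨hxX, hxU⟩
    rcases hloc x hxU with h | h
    · filter_upwards [h, hUo.mem_nhds hxU] with y h1 h2 using ⟨h1, h2⟩
    · exact absurd hxX h.self_of_nhds
  · rw [isOpen_iff_mem_nhds]
    rintro x ⟨hxU, hxX⟩
    rcases hloc x hxU with h | h
    · exact absurd h.self_of_nhds hxX
    · filter_upwards [h, hUo.mem_nhds hxU] with y h1 h2 using ⟨h2, h1⟩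
  · by_contra hcon
    push Not at hcon
    obtain ⟨h1, h2⟩ := hcon
    obtain ⟨x, hx, hxU⟩ := hUd.inter_open_nonempty _ isOpen_interior h2
    rcases hloc x hxU with h | h
    · have h3 : x ∈ interior X := mem_interior_iff_mem_nhds.mpr h
      rw [h1] at h3
      exact h3
    · have h3 : x ∈ closure X := interior_subset hx
      obtain ⟨y, hy1, hy2⟩ := mem_closure_iff_nhds.mp h3 _ h
      exact hy1 hy2

end Pool.Agent.Results.MP_ac65b7_lc.AllDimensions
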